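import Mathlib

/-! Values of `d` for which the triangular lattice can be covered by non-overlapping unit disks. -/

namespace Pool.Agent.Results.MP_962d12_co.Cover

open Metric

/-- the sixth root of unity -/
noncomputable def om : ℂ := Complex.exp (Real.pi / 3 * Complex.I)

/-- the lattice `T_d` is covered by countably many closed unit disks with disjoint interiors -/
def Coverable (d : ℝ) : Prop :=
  ∃ C : Set ℂ, C.Countable ∧
    (C.Pairwise fun x y => Disjoint (interior (closedBall x 1)) (interior (closedBall y 1))) ∧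
    ∀ a b : ℤ, ∃ x ∈ C, (d : ℂ) * (a + b * om) ∈ closedBall x 1

theorem om_re : om.re = 1 / 2 := by
  have : om = Complex.exp ((Real.pi / 3 : ℝ) * Complex.I) := by simp [om]
  rw [this, Complex.exp_ofReal_mul_I_re, Real.cos_pi_div_three]

theorem om_im : om.im = √3 / 2 := by
  have : om = Complex.exp ((Real.pi / 3 : ℝ) * Complex.I) := by simp [om]
  rw [this, Complex.exp_ofReal_mul_I_im, Real.sin_pi_div_three]

/-- the norm form -/
def N (u v : ℤ) : ℤ := u * u + u * v + v * v

/-- scaled lattice point -/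
noncomputable def pt (e : ℝ) (u v : ℤ) : ℂ := (e : ℂ) * (u + v * om)

theorem dist_pt (e : ℝ) (u v u' v' : ℤ) :
    dist (pt e u v) (pt e u' v') ^ 2 = e ^ 2 * N (u - u') (v - v') := by
  rw [Complex.dist_eq, Complex.sq_norm, Complex.normSq_apply]
  simp only [pt, N, Complex.sub_re, Complex.sub_im, Complex.mul_re, Complex.mul_im,
    Complex.add_re, Complex.add_im, Complex.ofReal_re, Complex.ofReal_im, Complex.intCast_re,
    Complex.intCast_im, om_re, om_im]
  push_cast
  have : √3 * √3 = 3 := Real.mul_self_sqrt (by norm_num)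
  linear_combination (e ^ 2 * ((v : ℝ) - v') ^ 2 / 4) * this

/-- integers from `-k` to `k` -/
def rg (k : ℕ) : List ℤ := (List.range (2 * k + 1)).map fun i : ℕ => (i : ℤ) - k

theorem mem_rg {k : ℕ} {z : ℤ} (h1 : -(k : ℤ) ≤ z) (h2 : z ≤ k) : z ∈ rg k :=
  List.mem_map.2 ⟨(z + k).toNat, List.mem_range.2 (by omega),
    show (((z + k).toNat : ℕ) : ℤ) - k = z by omega⟩

/-- the finite check of a periodic pattern -/
def chk (D a b c R S E : ℤ) (K : ℕ) (O : List (ℤ × ℤ)) : Bool :=
  decide (0 < D) && decide (0 < a) && decide (0 < c) && decide (E ≤ D * (K + 1)) &&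
  decide (4 * S ≤ 3 * (D * (K + 1) - E) ^ 2) &&
  ((List.range a.toNat).all fun x => (List.range c.toNat).all fun y => O.any fun o =>
    (rg 4).any fun s => (rg 4).any fun t =>
      decide (N (D * x - (D * (s * a + t * b) + o.1)) (D * y - (D * (t * c) + o.2)) ≤ R)) &&
  (O.all fun o => O.all fun p => decide (|o.1 - p.1| ≤ E) && decide (|o.2 - p.2| ≤ E) &&
    (rg K).all fun w => (rg K).all fun t => decide ((w - t * b) % a ≠ 0) ||
      decide (D * w + (o.1 - p.1) = 0 ∧ D * (t * c) + (o.2 - p.2) = 0) ||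
      decide (S ≤ N (D * w + (o.1 - p.1)) (D * (t * c) + (o.2 - p.2))))

theorem big {D z e E S : ℤ} {K : ℕ} (hD : 0 < D) (hE : E ≤ D * (K + 1))
    (hS : 4 * S ≤ 3 * (D * (K + 1) - E) ^ 2) (he : |e| ≤ E) (hz : (K : ℤ) + 1 ≤ |z|) :
    4 * S ≤ 3 * (D * z + e) ^ 2 := by
  have h1 : D * (K + 1) - E ≤ |D * z + e| := by
    have h2 : |D * z| ≤ |D * z + e| + |e| := by
      simpa using abs_sub (D * z + e) e
    rw [abs_mul, abs_of_pos hD] at h2
    nlinarith
  have := pow_le_pow_left₀ (by linarith) h1 2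
  rw [sq_abs] at this
  linarith

theorem le_of_sq_le_sq_aux {x y : ℝ} (h : x ^ 2 ≤ y ^ 2) (hy : 0 ≤ y) : x ≤ y :=
  (abs_le_of_sq_le_sq' h hy).2

theorem gen (D a b c R S E : ℤ) (K : ℕ) (O : List (ℤ × ℤ)) (h : chk D a b c R S E K O = true)
    (d : ℝ) (h1 : d ^ 2 * R ≤ D ^ 2) (h2 : 4 * (D : ℝ) ^ 2 ≤ d ^ 2 * S) : Coverable d := by
  simp only [chk, Bool.and_eq_true, decide_eq_true_eq, List.all_eq_true, List.any_eq_true,
    Bool.or_eq_true, List.mem_range] at h
  obtain ⟨⟨⟨⟨⟨⟨hD, ha⟩, hc⟩, hE⟩, hS⟩, hcov⟩, hpack⟩ := h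
  have hD' : (0 : ℝ) < D := by exact_mod_cast hD
  have hd2 : (0 : ℝ) ≤ (d / D) ^ 2 := sq_nonneg _
  let F : (ℤ × ℤ) × ℤ × ℤ → ℂ := fun q =>
    pt (d / D) (D * (q.2.1 * a + q.2.2 * b) + q.1.1) (D * (q.2.2 * c) + q.1.2)
  refine ⟨F '' {q | q.1 ∈ O}, (Set.to_countable _).image _, ?_, fun x y => ?_⟩
  · rintro _ ⟨⟨o, s, t⟩, ho, rfl⟩ _ ⟨⟨p, s', t'⟩, hp, rfl⟩ hne
    rw [interior_closedBall _ one_ne_zero, interior_closedBall _ one_ne_zero]
    refine ball_disjoint_ball ?_
    obtain ⟨⟨e1, e2⟩, e3⟩ := hpack o ho p hp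
    have key : S ≤ N (D * ((s - s') * a + (t - t') * b) + (o.1 - p.1))
        (D * ((t - t') * c) + (o.2 - p.2)) := by
      by_cases hw : (K : ℤ) + 1 ≤ |(s - s') * a + (t - t') * b|
      · have := big hD hE hS e1 hw
        simp only [N]
        nlinarith [sq_nonneg (D * ((s - s') * a + (t - t') * b) + (o.1 - p.1)
          + 2 * (D * ((t - t') * c) + (o.2 - p.2)))]
      by_cases ht : (K : ℤ) + 1 ≤ |t - t'|
      · have := big (z := (t - t') * c) hD hE hS e2 (by
          rw [abs_mul, abs_of_pos hc]; nlinarith [abs_nonneg (t - t')])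
        simp only [N]
        nlinarith [sq_nonneg (2 * (D * ((s - s') * a + (t - t') * b) + (o.1 - p.1))
          + (D * ((t - t') * c) + (o.2 - p.2)))]
      rw [not_le, Int.lt_add_one_iff, abs_le] at hw ht
      rcases e3 _ (mem_rg hw.1 hw.2) _ (mem_rg ht.1 ht.2) with (h | h) | h
      · exact absurd (by simp) h
      · refine absurd ?_ hne
        simp only [F]
        congr 1 <;> linarith [h.1, h.2]
      · exact h
    have e := dist_pt (d / D) (D * (s * a + t * b) + o.1) (D * (t * c) + o.2)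
      (D * (s' * a + t' * b) + p.1) (D * (t' * c) + p.2)
    rw [show D * (s * a + t * b) + o.1 - (D * (s' * a + t' * b) + p.1)
        = D * ((s - s') * a + (t - t') * b) + (o.1 - p.1) by ring,
      show D * (t * c) + o.2 - (D * (t' * c) + p.2) = D * ((t - t') * c) + (o.2 - p.2) by ring] at e
    have k2 : (S : ℝ) ≤ _ := Int.cast_le.2 key
    have k3 : (4 : ℝ) ≤ (d / D) ^ 2 * S := by
      rw [div_pow, div_mul_eq_mul_div, le_div_iff₀ (by positivity)]; exact h2
    refine le_of_sq_le_sq_aux ?_ dist_nonneg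
    simp only [F]
    rw [e]
    nlinarith [mul_le_mul_of_nonneg_left k2 hd2]
  · have y0 := Int.emod_nonneg y hc.ne'
    have y1 := Int.emod_lt_of_pos y hc
    have x0 := Int.emod_nonneg (x - y / c * b) ha.ne'
    have x1 := Int.emod_lt_of_pos (x - y / c * b) ha
    obtain ⟨o, ho, s, -, t, -, hN⟩ := hcov ((x - y / c * b) % a).toNat (by omega)
      (y % c).toNat (by omega)
    rw [Int.toNat_of_nonneg x0, Int.toNat_of_nonneg y0] at hN
    refine ⟨_, ⟨(o, s + (x - y / c * b) / a, t + y / c), ho, rfl⟩, ?_⟩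
    have e0 : (d : ℂ) * (x + y * om) = pt (d / D) (D * x) (D * y) := by
      have : (D : ℂ) ≠ 0 := by exact_mod_cast hD.ne'
      simp only [pt]; push_cast; field_simp
    rw [mem_closedBall, e0]
    refine le_of_sq_le_sq_aux ?_ zero_le_one
    simp only [F]
    rw [dist_pt]
    have a1 := Int.emod_add_mul_ediv (x - y / c * b) a
    have a2 := Int.emod_add_mul_ediv y c
    rw [show D * x - (D * ((s + (x - y / c * b) / a) * a + (t + y / c) * b) + o.1)
        = D * ((x - y / c * b) % a) - (D * (s * a + t * b) + o.1) by linear_combination (-D) * a1,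
      show D * y - (D * ((t + y / c) * c) + o.2) = D * (y % c) - (D * (t * c) + o.2) by
        linear_combination (-D) * a2]
    have k2 : (_ : ℝ) ≤ (R : ℝ) := Int.cast_le.2 hN
    have k3 : (d / D) ^ 2 * R ≤ 1 := by
      rw [div_pow, div_mul_eq_mul_div, div_le_one (by positivity)]; exact h1
    nlinarith [mul_le_mul_of_nonneg_left k2 hd2]

theorem result (d : ℝ) (_hd : 0 < d)
    (h : d ^ 2 = 1 / 13 ∨ (4 / 37 ≤ d ^ 2 ∧ d ^ 2 ≤ 1 / 9) ∨ (4 / 31 ≤ d ^ 2 ∧ d ^ 2 ≤ 1 / 7) ∨
      (4 / 27 ≤ d ^ 2 ∧ d ^ 2 ≤ 3 / 19) ∨ d ^ 2 = 4 / 21 ∨ (4 / 19 ≤ d ^ 2 ∧ d ^ 2 ≤ 25 / 91) ∨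
      (4 / 13 ≤ d ^ 2 ∧ d ^ 2 ≤ 3 / 7) ∨ (4 / 9 ≤ d ^ 2 ∧ d ^ 2 ≤ 25 / 49) ∨ 4 / 7 ≤ d ^ 2) :
    Coverable d := by
  rcases h with h | h | h | h | h | h | h | h | h
  · exact gen 1 26 6 2 13 52 0 9 [(0, 0)] (by decide +kernel) d (by push_cast; linarith)
      (by push_cast; linarith)
  · exact gen 1 37 10 1 9 37 0 8 [(0, 0)] (by decide +kernel) d (by push_cast; linarith [h.2])
      (by push_cast; linarith [h.1])
  · exact gen 1 31 5 1 7 31 0 8 [(0, 0)] (by decide +kernel) d (by push_cast; linarith [h.2])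
      (by push_cast; linarith [h.1])
  · exact gen 3 9 3 3 57 243 0 8 [(1, 1)] (by decide +kernel) d (by push_cast; linarith [h.2])
      (by push_cast; linarith [h.1])
  · exact gen 2 21 4 1 21 84 0 8 [(0, 1)] (by decide +kernel) d (by push_cast; linarith)
      (by push_cast; linarith)
  · by_cases h' : d ^ 2 ≤ 1 / 4
    · exact gen 1 19 7 1 4 19 0 8 [(0, 0)] (by decide +kernel) d (by push_cast; linarith)
        (by push_cast; linarith [h.1])
    · exact gen 5 4 0 4 91 400 0 8 [(0, 1)] (by decide +kernel) d (by push_cast; linarith [h.2])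
        (by push_cast; linarith)
  · by_cases h' : d ^ 2 ≤ 1 / 3
    · exact gen 1 13 3 1 3 13 0 8 [(0, 0)] (by decide +kernel) d (by push_cast; linarith)
        (by push_cast; linarith [h.1])
    · exact gen 3 6 2 2 21 108 0 8 [(1, 1)] (by decide +kernel) d (by push_cast; linarith [h.2])
        (by push_cast; linarith)
  · exact gen 5 3 0 3 49 225 0 8 [(0, 2)] (by decide +kernel) d (by push_cast; linarith [h.2])
      (by push_cast; linarith [h.1])
  · by_cases h1 : d ^ 2 ≤ 1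
    · exact gen 1 7 2 1 1 7 0 8 [(0, 0)] (by decide +kernel) d (by push_cast; linarith)
        (by push_cast; linarith)
    by_cases h2 : d ^ 2 ≤ 4 / 3
    · exact gen 2 2 0 2 3 16 0 8 [(0, 1)] (by decide +kernel) d (by push_cast; linarith)
        (by push_cast; linarith)
    by_cases h3 : d ^ 2 ≤ 3
    · exact gen 3 3 1 1 3 27 0 8 [(1, 1)] (by decide +kernel) d (by push_cast; linarith)
        (by push_cast; linarith)
    by_cases h4 : d ^ 2 ≤ 4
    · exact gen 2 4 1 1 1 7 3 8 [(1, 0), (-2, 1)] (by decide +kernel) d (by push_cast; linarith)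
        (by push_cast; linarith)
    · exact gen 1 1 0 1 0 1 0 8 [(0, 0)] (by decide +kernel) d (by push_cast; linarith)
        (by push_cast; linarith)




end Pool.Agent.Results.MP_962d12_co.Cover
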