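import Mathlib

/-! Values of `d` for which the triangular lattice can be covered by non-overlapping unit disks. -/

namespace Pool.Agent.Results.MP_962d12_co.NoCover

open Metric

/-- the sixth root of unity -/
noncomputable def om : ℂ := Complex.exp (Real.pi / 3 * Complex.I)

/-- the lattice `T_d` is covered by countably many closed unit disks with disjoint interiors -/
def Coverable (d : ℝ) : Prop :=
  ∃ C : Set ℂ, C.Countable ∧
    (C.Pairwise fun x y => Disjoint (interior (closedBall x 1)) (interior (closedBall y 1))) ∧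
    ∀ a b : ℤ, ∃ x ∈ C, (d : ℂ) * (a + b * om) ∈ closedBall x 1

theorem om_re : om.re = 1 / 2 := by
  have : om = Complex.exp ((Real.pi / 3 : ℝ) * Complex.I) := by simp [om]
  rw [this, Complex.exp_ofReal_mul_I_re, Real.cos_pi_div_three]

theorem om_im : om.im = √3 / 2 := by
  have : om = Complex.exp ((Real.pi / 3 : ℝ) * Complex.I) := by simp [om]
  rw [this, Complex.exp_ofReal_mul_I_im, Real.sin_pi_div_three]

/-- the norm form -/
def N (u v : ℤ) : ℤ := u * u + u * v + v * v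

/-- scaled lattice point -/
noncomputable def pt (e : ℝ) (u v : ℤ) : ℂ := (e : ℂ) * (u + v * om)

theorem dist_pt (e : ℝ) (u v u' v' : ℤ) :
    dist (pt e u v) (pt e u' v') ^ 2 = e ^ 2 * N (u - u') (v - v') := by
  rw [Complex.dist_eq, Complex.sq_norm, Complex.normSq_apply]
  simp only [pt, N, Complex.sub_re, Complex.sub_im, Complex.mul_re, Complex.mul_im,
    Complex.add_re, Complex.add_im, Complex.ofReal_re, Complex.ofReal_im, Complex.intCast_re,
    Complex.intCast_im, om_re, om_im]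
  push_cast
  have : √3 * √3 = 3 := Real.mul_self_sqrt (by norm_num)
  linear_combination (e ^ 2 * ((v : ℝ) - v') ^ 2 / 4) * this

/-- integers from `-k` to `k` -/
def rg (k : ℕ) : List ℤ := (List.range (2 * k + 1)).map fun i : ℕ => (i : ℤ) - k

theorem mem_rg {k : ℕ} {z : ℤ} (h1 : -(k : ℤ) ≤ z) (h2 : z ≤ k) : z ∈ rg k :=
  List.mem_map.2 ⟨(z + k).toNat, List.mem_range.2 (by omega),
    show (((z + k).toNat : ℕ) : ℤ) - k = z by omega⟩

/-- the finite check of a periodic pattern -/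
def chk (D a b c R S E : ℤ) (K : ℕ) (O : List (ℤ × ℤ)) : Bool :=
  decide (0 < D) && decide (0 < a) && decide (0 < c) && decide (E ≤ D * (K + 1)) &&
  decide (4 * S ≤ 3 * (D * (K + 1) - E) ^ 2) &&
  ((List.range a.toNat).all fun x => (List.range c.toNat).all fun y => O.any fun o =>
    (rg 4).any fun s => (rg 4).any fun t =>
      decide (N (D * x - (D * (s * a + t * b) + o.1)) (D * y - (D * (t * c) + o.2)) ≤ R)) &&
  (O.all fun o => O.all fun p => decide (|o.1 - p.1| ≤ E) && decide (|o.2 - p.2| ≤ E) &&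
    (rg K).all fun w => (rg K).all fun t => decide ((w - t * b) % a ≠ 0) ||
      decide (D * w + (o.1 - p.1) = 0 ∧ D * (t * c) + (o.2 - p.2) = 0) ||
      decide (S ≤ N (D * w + (o.1 - p.1)) (D * (t * c) + (o.2 - p.2))))

theorem big {D z e E S : ℤ} {K : ℕ} (hD : 0 < D) (hE : E ≤ D * (K + 1))
    (hS : 4 * S ≤ 3 * (D * (K + 1) - E) ^ 2) (he : |e| ≤ E) (hz : (K : ℤ) + 1 ≤ |z|) :
    4 * S ≤ 3 * (D * z + e) ^ 2 := by
  have h1 : D * (K + 1) - E ≤ |D * z + e| := by
    have h2 : |D * z| ≤ |D * z + e| + |e| := by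
      simpa using abs_sub (D * z + e) e
    rw [abs_mul, abs_of_pos hD] at h2
    nlinarith
  have := pow_le_pow_left₀ (by linarith) h1 2
  rw [sq_abs] at this
  linarith

theorem le_of_sq_le_sq_aux {x y : ℝ} (h : x ^ 2 ≤ y ^ 2) (hy : 0 ≤ y) : x ≤ y :=
  (abs_le_of_sq_le_sq' h hy).2

theorem near (s t : ℝ) : ∃ a b : ℤ, (s - a) ^ 2 + (s - a) * (t - b) + (t - b) ^ 2 ≤ 1 / 3 := by
  by_contra h
  push Not at h
  have s0 := Int.fract_nonneg s
  have s1 := Int.fract_lt_one s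
  have t0 := Int.fract_nonneg t
  have t1 := Int.fract_lt_one t
  have h0 := h ⌊s⌋ ⌊t⌋
  have h1 := h (⌊s⌋ + 1) ⌊t⌋
  have h2 := h ⌊s⌋ (⌊t⌋ + 1)
  have h3 := h (⌊s⌋ + 1) (⌊t⌋ + 1)
  push_cast at h1 h2 h3
  rw [← sub_sub] at h1 h2
  rw [← sub_sub, ← sub_sub] at h3
  simp only [Int.self_sub_floor] at h0 h1 h2 h3
  generalize Int.fract s = x at *
  generalize Int.fract t = y at *
  rcases le_total (x + y) 1 with e | e
  · nlinarith [mul_nonneg (sub_nonneg.2 e) (sub_nonneg.2 h0.le), mul_nonneg s0 (sub_nonneg.2 h1.le),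
      mul_nonneg t0 (sub_nonneg.2 h2.le), sq_nonneg (x - y), sq_nonneg (x + y - 2 / 3),
      mul_pos (sub_pos.2 h0) (sub_pos.2 h1)]
  · nlinarith [mul_nonneg (sub_nonneg.2 e) (sub_nonneg.2 h3.le),
      mul_nonneg (sub_nonneg.2 t1.le) (sub_nonneg.2 h1.le),
      mul_nonneg (sub_nonneg.2 s1.le) (sub_nonneg.2 h2.le), sq_nonneg (x - y),
      sq_nonneg (x + y - 4 / 3)]

theorem dsq (x y : ℂ) : dist x y ^ 2 = (x.re - y.re) ^ 2 + (x.im - y.im) ^ 2 := by
  rw [Complex.dist_eq, Complex.sq_norm, Complex.normSq_apply]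
  simp only [Complex.sub_re, Complex.sub_im]; ring

theorem hole (C : Set ℂ) (x : ℂ) (hx : x ∈ C) (h : C.Pairwise fun x y => 2 ≤ dist x y) :
    ∃ Q : ℂ, ∀ z ∈ C, 4 / 3 ≤ dist z Q ^ 2 := by
  have h' : ∀ a ∈ C, ∀ b ∈ C, a ≠ b → 4 ≤ dist a b ^ 2 := fun a ha b hb e => by
    nlinarith [h ha hb e]
  by_cases e : ∃ y ∈ C, y ≠ x ∧ dist x y ^ 2 ≤ 16 / 3
  · obtain ⟨y, hy, hne, hd⟩ := e
    have hL := h' x hx y hy hne.symm
    obtain ⟨k, hk⟩ : ∃ k : ℝ, dist x y ^ 2 * (1 / 4 + k ^ 2) = 4 / 3 := by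
      refine ⟨√(4 / 3 / dist x y ^ 2 - 1 / 4), ?_⟩
      rw [Real.sq_sqrt]
      · have : dist x y ≠ 0 := dist_ne_zero.2 hne.symm
        field_simp; ring
      · rw [sub_nonneg, le_div_iff₀ (by linarith)]; linarith
    let Q : ℂ := ⟨(x.re + y.re) / 2 - k * (y.im - x.im), (x.im + y.im) / 2 + k * (y.re - x.re)⟩
    have q1 : dist x Q ^ 2 = 4 / 3 := by rw [← hk, dsq, dsq]; simp only [Q]; ring
    have q2 : dist y Q ^ 2 = 4 / 3 := by rw [← hk, dsq, dsq]; simp only [Q]; ring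
    refine ⟨Q, fun z hz => ?_⟩
    by_cases e1 : z = x
    · rw [e1, q1]
    by_cases e2 : z = y
    · rw [e2, q2]
    have a1 := h' z hz x hx e1
    have a2 := h' z hz y hy e2
    rw [dsq] at a1 a2 hL q1 q2 ⊢
    nlinarith [sq_nonneg (x.re + y.re + z.re - 3 * Q.re), sq_nonneg (x.im + y.im + z.im - 3 * Q.im)]
  · push Not at e
    obtain ⟨k, hk⟩ : ∃ k : ℝ, k ^ 2 = 4 / 3 := ⟨√(4 / 3), Real.sq_sqrt (by norm_num)⟩
    refine ⟨⟨x.re + k, x.im⟩, fun z hz => ?_⟩
    by_cases e1 : z = x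
    · rw [e1, dsq]; simp only; nlinarith
    · have := e z hz e1
      rw [dsq] at this ⊢
      simp only
      nlinarith [sq_nonneg (z.re - x.re - 2 * k), sq_nonneg (z.im - x.im)]

theorem neg (d : ℝ) (hd : 0 < d) (h : Coverable d) : 2 - √3 ≤ d := by
  obtain ⟨C, -, hp, hc⟩ := h
  obtain ⟨x, hx, -⟩ := hc 0 0
  obtain ⟨Q, hQ⟩ := hole C x hx fun a ha b hb e => by
    have := hp ha hb e
    beta_reduce at this ⊢
    rw [interior_closedBall _ one_ne_zero, interior_closedBall _ one_ne_zero,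
      disjoint_ball_ball_iff one_pos one_pos] at this
    linarith
  have r3 : √3 * √3 = 3 := Real.mul_self_sqrt (by norm_num)
  have r0 : 0 < √3 := by positivity
  obtain ⟨u, v, hu, hv⟩ : ∃ u v : ℝ, Q.re = d * (u + v / 2) ∧ Q.im = d * (v * (√3 / 2)) :=
    ⟨Q.re / d - Q.im / (d * √3), 2 * Q.im / (d * √3), by field_simp; ring, by field_simp⟩
  obtain ⟨a, b, hab⟩ := near u v
  obtain ⟨z, hz, hz'⟩ := hc a b
  rw [mem_closedBall] at hz'
  have h1 : dist ((d : ℂ) * (a + b * om)) Q ^ 2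
      = d ^ 2 * ((u - a) ^ 2 + (u - a) * (v - b) + (v - b) ^ 2) := by
    rw [dsq, hu, hv]
    simp only [Complex.mul_re, Complex.mul_im, Complex.add_re, Complex.add_im, Complex.ofReal_re,
      Complex.ofReal_im, Complex.intCast_re, Complex.intCast_im, om_re, om_im]
    linear_combination (d ^ 2 * (v - b) ^ 2 / 4) * r3
  have h2 : √3 * dist ((d : ℂ) * (a + b * om)) Q ≤ d := by
    refine le_of_sq_le_sq_aux ?_ hd.le
    rw [mul_pow, h1, Real.sq_sqrt (by norm_num)]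
    nlinarith [mul_le_mul_of_nonneg_left hab (sq_nonneg d)]
  have h3 : 2 ≤ √3 * dist z Q := by
    refine le_of_sq_le_sq_aux ?_ (by positivity)
    rw [mul_pow, Real.sq_sqrt (by norm_num)]
    linarith [hQ z hz]
  have h4 := dist_triangle_left z Q ((d : ℂ) * (a + b * om))
  nlinarith [mul_le_mul_of_nonneg_left h4 r0.le, mul_le_mul_of_nonneg_left hz' r0.le]


theorem result (d : ℝ) (hd : 0 < d) (h : d < 2 - √3) : ¬ Coverable d :=
  fun hc => absurd (neg d hd hc) (not_le.2 h)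

end Pool.Agent.Results.MP_962d12_co.NoCover
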